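import Pool.Agent.X40.Kron

/-!
# MP_7b9a49_nt: extremal divisors of `x ^ n - 1` for squarefree `n`

For `n = 10374 = 2 · 3 · 7 · 13 · 19` neither of the two products is extremal.
-/

set_option autoImplicit false

namespace Pool.Agent.Results.MP_7b9a49_nt.CounterExample

open Polynomial Finset Pool.Agent.X40 Pool.Agent.X40.Kr

/-- the product of the `Φ_d`, `d ∣ n`, with an odd number of primes dividing `d` -/
noncomputable def Podd (n : ℕ) : ℤ[X] :=
  ∏ d ∈ n.divisors.filter (fun d => Odd d.primeFactors.card), cyclotomic d ℤ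

/-- the product of the `Φ_d`, `d ∣ n`, with an even number of primes dividing `d` -/
noncomputable def Peven (n : ℕ) : ℤ[X] :=
  ∏ d ∈ n.divisors.filter (fun d => Even d.primeFactors.card), cyclotomic d ℤ

def Sodd : List (List ℕ) := [[2], [3], [7], [2, 3, 7], [13], [2, 3, 13], [2, 7, 13], [3, 7, 13], [19],
  [2, 3, 19], [2, 7, 19], [3, 7, 19], [2, 13, 19], [3, 13, 19], [7, 13, 19], [2, 3, 7, 13, 19]]

def Seven : List (List ℕ) := [[], [2, 3], [2, 7], [3, 7], [2, 13], [3, 13], [7, 13], [2, 3, 7, 13],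
  [2, 19], [3, 19], [7, 19], [2, 3, 7, 19], [13, 19], [2, 3, 13, 19], [2, 7, 13, 19], [3, 7, 13, 19]]

lemma div_eq : (10374 : ℕ).divisors =
    ((Sodd.map List.prod).toFinset ∪ (Seven.map List.prod).toFinset : Finset ℕ) := by
  decide +kernel

lemma primes_odd : ∀ l ∈ Sodd, ∀ p ∈ l, p.Prime := by
  intro l hl p hp
  have h : ∀ l ∈ Sodd, ∀ p ∈ l, p = 2 ∨ p = 3 ∨ p = 7 ∨ p = 13 ∨ p = 19 := by decide
  rcases h l hl p hp with rfl | rfl | rfl | rfl | rfl <;> norm_num

lemma primes_even : ∀ l ∈ Seven, ∀ p ∈ l, p.Prime := by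
  intro l hl p hp
  have h : ∀ l ∈ Seven, ∀ p ∈ l, p = 2 ∨ p = 3 ∨ p = 7 ∨ p = 13 ∨ p = 19 := by decide
  rcases h l hl p hp with rfl | rfl | rfl | rfl | rfl <;> norm_num

lemma card_primeFactors : ∀ l : List ℕ, (∀ p ∈ l, p.Prime) → l.Nodup →
    l.prod.primeFactors.card = l.length := by
  intro l hl hn
  have : l.prod.primeFactors = l.toFinset := by
    induction l with
    | nil => simp
    | cons p l ih =>
      have hp := hl p (by simp)
      have hl' : ∀ q ∈ l, q.Prime := fun q hq => hl q (by simp [hq])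
      have h0 : l.prod ≠ 0 := by
        rw [Ne, List.prod_eq_zero_iff]
        intro h
        exact Nat.not_prime_zero (hl' 0 h)
      rw [List.prod_cons, Nat.primeFactors_mul hp.ne_zero h0, ih hl' (List.nodup_cons.1 hn).2,
        hp.primeFactors, List.toFinset_cons]
      rfl
  rw [this, List.toFinset_card_of_nodup hn]

lemma filter_odd : (10374 : ℕ).divisors.filter (fun d => Odd d.primeFactors.card) =
    (Sodd.map List.prod).toFinset := by
  rw [div_eq, filter_union]
  have h1 : (Sodd.map List.prod).toFinset.filter (fun d => Odd d.primeFactors.card) =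
      (Sodd.map List.prod).toFinset := by
    rw [filter_eq_self]
    intro d hd
    rw [List.mem_toFinset, List.mem_map] at hd
    obtain ⟨l, hl, rfl⟩ := hd
    have h2 : ∀ l ∈ Sodd, l.Nodup ∧ l.length % 2 = 1 := by decide
    rw [card_primeFactors l (primes_odd l hl) (h2 l hl).1, Nat.odd_iff]
    exact (h2 l hl).2
  have h2 : (Seven.map List.prod).toFinset.filter (fun d => Odd d.primeFactors.card) = ∅ := by
    rw [filter_eq_empty_iff]
    intro d hd
    rw [List.mem_toFinset, List.mem_map] at hd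
    obtain ⟨l, hl, rfl⟩ := hd
    have h2 : ∀ l ∈ Seven, l.Nodup ∧ l.length % 2 = 0 := by decide
    rw [card_primeFactors l (primes_even l hl) (h2 l hl).1, Nat.odd_iff, (h2 l hl).2]
    norm_num
  rw [h1, h2, union_empty]

lemma filter_even : (10374 : ℕ).divisors.filter (fun d => Even d.primeFactors.card) =
    (Seven.map List.prod).toFinset := by
  rw [div_eq, filter_union]
  have h1 : (Seven.map List.prod).toFinset.filter (fun d => Even d.primeFactors.card) =
      (Seven.map List.prod).toFinset := by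
    rw [filter_eq_self]
    intro d hd
    rw [List.mem_toFinset, List.mem_map] at hd
    obtain ⟨l, hl, rfl⟩ := hd
    have h2 : ∀ l ∈ Seven, l.Nodup ∧ l.length % 2 = 0 := by decide
    rw [card_primeFactors l (primes_even l hl) (h2 l hl).1, Nat.even_iff]
    exact (h2 l hl).2
  have h2 : (Sodd.map List.prod).toFinset.filter (fun d => Even d.primeFactors.card) = ∅ := by
    rw [filter_eq_empty_iff]
    intro d hd
    rw [List.mem_toFinset, List.mem_map] at hd
    obtain ⟨l, hl, rfl⟩ := hd
    have h2 : ∀ l ∈ Sodd, l.Nodup ∧ l.length % 2 = 1 := by decide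
    rw [card_primeFactors l (primes_odd l hl) (h2 l hl).1, Nat.even_iff, (h2 l hl).2]
    norm_num
  rw [h1, h2, empty_union]

lemma Podd_eq : Podd 10374 = CP Sodd := by
  rw [Podd, filter_odd, CP, List.prod_toFinset _ (by decide +kernel), List.map_map]
  rfl

lemma Peven_eq : Peven 10374 = CP Seven := by
  rw [Peven, filter_even, CP, List.prod_toFinset _ (by decide +kernel), List.map_map]
  rfl

lemma le_odd : H (Podd 10374) ≤ 8415683487216 := by
  rw [Podd_eq]
  exact ((Adm.list (B := 2 ^ 112) (by norm_num) primes_odd).height (n := 5188) (by norm_num)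
    (by decide +kernel) (by decide +kernel)).1

lemma le_even : H (Peven 10374) ≤ 8415683487216 := by
  rw [Peven_eq]
  exact ((Adm.list (B := 2 ^ 112) (by norm_num) primes_even).height (n := 5188) (by norm_num)
    (by decide +kernel) (by decide +kernel)).1

/-- the divisor `(x - 1) P_odd` -/
lemma coeff_f : (CP ([] :: Sodd)).coeff 2590 = -9401697462912 ∨
    (CP ([] :: Sodd)).coeff 2590 = 9401697462912 := by
  have h := ((Adm.list (B := 2 ^ 112) (S := [] :: Sodd) (by norm_num) (by
    intro l hl
    rw [List.mem_cons] at hl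
    rcases hl with rfl | hl
    · simp
    · exact primes_odd l hl)).height (n := 5189) (h := 9401697462912) (by norm_num)
    (by decide +kernel) (by decide +kernel)).2 2590 (by norm_num)
  rw [h]
  decide +kernel

lemma hsq : Squarefree 10374 := by
  have h2 : Squarefree 2 := Nat.prime_two.squarefree
  have h3 : Squarefree 3 := Nat.prime_three.squarefree
  have h7 : Squarefree 7 := (show Nat.Prime 7 by norm_num).squarefree
  have h13 : Squarefree 13 := (show Nat.Prime 13 by norm_num).squarefree
  have h19 : Squarefree 19 := (show Nat.Prime 19 by norm_num).squarefree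
  rw [show (10374 : ℕ) = 2 * (3 * (7 * (13 * 19))) by norm_num]
  exact (Nat.squarefree_mul (by norm_num)).2 ⟨h2, (Nat.squarefree_mul (by norm_num)).2 ⟨h3,
    (Nat.squarefree_mul (by norm_num)).2 ⟨h7, (Nat.squarefree_mul (by norm_num)).2 ⟨h13, h19⟩⟩⟩⟩

lemma hf : (X - 1) * Podd 10374 = CP ([] :: Sodd) := by
  rw [CP_cons, Podd_eq, List.prod_nil, cyclotomic_one]

lemma mul_eq {n : ℕ} (hn : 0 < n) : Podd n * Peven n = X ^ n - 1 := by
  rw [← prod_cyclotomic_eq_X_pow_sub_one hn, Podd, Peven]
  rw [← prod_filter_mul_prod_filter_not n.divisors (fun d => Odd d.primeFactors.card)]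
  simp_rw [Nat.not_odd_iff_even]

lemma hdvd {n : ℕ} (hn : 0 < n) : (X - 1) * Podd n ∣ X ^ n - 1 := by
  have h1 : (X - 1 : ℤ[X]) ∣ Peven n := by
    rw [← cyclotomic_one, Peven]
    apply dvd_prod_of_mem (fun d => cyclotomic d ℤ)
    rw [mem_filter, Nat.mem_divisors]
    exact ⟨⟨one_dvd _, hn.ne'⟩, by simp⟩
  rw [← mul_eq hn, mul_comm (X - 1)]
  exact mul_dvd_mul_left _ h1

lemma hge : 9401697462912 ≤ H ((X - 1) * Podd 10374) := by
  have h1 := le_H (CP ([] :: Sodd)) 2590
  rw [hf]
  rcases coeff_f with h | h <;> rw [h] at h1 <;> exact h1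

/-- **Disproof of MP_7b9a49_nt, Q1**: for the squarefree `n = 10374 = 2 · 3 · 7 · 13 · 19` the
divisor `f = (x - 1) P_odd(n)` of `x ^ n - 1` has a larger height than `P_odd(n)` and `P_even(n)`,
so that `B(n)` equals neither of the heights of `P_odd(n)`, `P_even(n)`. -/
theorem result :
    (¬ ∀ n : ℕ, Squarefree n → 1 < n → (B n = H (Podd n) ∨ B n = H (Peven n))) ∧
    Squarefree 10374 ∧ H (Podd 10374) ≤ 8415683487216 ∧ H (Peven 10374) ≤ 8415683487216 ∧
    (X - 1) * Podd 10374 ∣ X ^ 10374 - 1 ∧ 9401697462912 ≤ H ((X - 1) * Podd 10374) := by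
  have hn : 0 < 10374 := by norm_num
  refine ⟨?_, hsq, le_odd, le_even, hdvd hn, hge⟩
  intro h
  have h2 := le_B hn (hdvd hn)
  have h1 := h 10374 hsq (by norm_num)
  have h3 := le_odd
  have h4 := le_even
  have h5 := hge
  generalize B 10374 = b at h1 h2
  generalize H ((X - 1) * Podd 10374) = b1 at h2 h5
  generalize H (Podd 10374) = b2 at h1 h3
  generalize H (Peven 10374) = b3 at h1 h4
  omega

end Pool.Agent.Results.MP_7b9a49_nt.CounterExample
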